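import Pool.Agent.Helper55.BM.Main

/-!
# Periodicity up to degree `2k` and Hopf invariant one, closed manifolds

Mathematical content. Let `M` be a closed connected smooth manifold of dimension `n`, and let `x`
in `H^k(M; Z_2)` be nonzero, of minimal degree among the classes which induce periodicity up to
degree `2k`, and induce periodicity up to degree `n`; `n = mk + q`, `0 ≤ q < k`, `m ≥ 2`. The
classes of degree between `0` and `k` are arbitrary.

By Poincaré duality `H^q` is generated by a class `y` with `x^m y` the fundamental class, and
`H^i y = 0` for `0 < i < k`, as products of classes of positive degree vanish in degree `k`. Hence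
`u Sq^i y = 0` for `u` in `H^(k-i)`, `0 < i < k` (Cartan formula, induction), and
`Sq^k (x^(m-1) y) = (m-1) x^m y`: the Wu class `v_k` and the Stiefel-Whitney class `w_k` of `M` are
`(m-1) x`, for all such `M` (second part). Adams' theorem on secondary operations for the Thom
class of the tangent bundle (`m` even), or for `x U` in the Thom space of the normal bundle (`m`
odd), gives `k = 1, 2, 4, 8` if the low Stiefel-Whitney classes of `M` vanish, or come from another
bundle (`m` even), or if they describe the squares `Sq^i x` (`m` odd); in particular if `k` divides
`n`, or if `q` is the only degree between `0` and `k` with nonzero cohomology (third part).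
-/

set_option autoImplicit false

namespace Pool.Agent.Results.MP_b0d82f_gt.ClosedManifolds

open Pool.Agent.Helper40.BP Pool.Agent.Helper55.BM

universe u v

theorem result {T : Theory.{u, v}} {M : T.Space} {n k m q : ℕ} (C : ClosedManifold T M n)
    {x : (T.coh M).H} (h : (T.coh M).MinimalPeriodic k x) (hper : (T.coh M).Periodic k x n)
    (hn : 2 * k ≤ n) (hnq : n = m * k + q) (hq : q < k) :
    C.TopPart k m q x ∧ (C.wu k = (m - 1) • x ∧ T.sw C.tangent k = (m - 1) • x) ∧
      (T.Adams → C.Answers k m q x) :=
  C.main h hper hn hnq hq

end Pool.Agent.Results.MP_b0d82f_gt.ClosedManifolds
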