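import Pool.Agent.Helper55.BMO.Answers

/-!
# Periodicity up to degree `pk` and Hopf invariant one, closed manifolds, `p` odd

Mathematical content. Let `p` be an odd prime, `M` a closed connected oriented smooth manifold of
dimension `n`, and let `x` in `H^k(M; Z_p)` be nonzero, of minimal degree among the classes which
induce periodicity up to degree `pk`, and induce periodicity up to degree `n`, `n ≥ pk`;
`n = mk + q`, `0 ≤ q < k`. The classes of degree between `0` and `k` are arbitrary.
`k = 2 L p^s`, `L` a divisor of `p - 1` (Kennard); put `r = (p - 1)/L`.

By Poincaré duality `H^q` is generated by a class `y` with `x^m y` the fundamental class, and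
`H^i y = 0` for `0 < i < k`, as products of classes of positive degree vanish in degree `k`. Since
`P^(p^s) x = c x^(r+1)`, `c ≠ 0`, and `P^i x` is divisible by `x` with a quotient of degree between
`0` and `k` (modulo `k`) for `0 < i < p^s`, the Cartan formula gives
`P^(p^s) (x^(m-r) y) = ((m-r) c + a) x^m y`, where `P^(p^s) y = a x^r y` (`a = 0` if
`q < 2 p^s`): this determines the Wu class `v_(p^s)` and the class `q_(p^s)` of `M`, for all such
`M` (second part). The theorem of Liulevicius, Shimada and Yamanoshita for the Thom class of the
tangent bundle, or for `x U` in the Thom space of the normal bundle, gives `s = 0` if the lower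
classes `q_(p^j)` of `M` vanish, or come from another fibration, or describe the operations
`P^(p^j) x`; in particular if `k` divides `n`, or if `q` is the only degree between `0` and `k`
with nonzero cohomology (third part).
-/

set_option autoImplicit false

namespace Pool.Agent.Results.MP_b0d82f_gt.ClosedManifoldsOdd

open Pool.Agent.Helper55.BQ Pool.Agent.Helper55.BMO

universe u v

theorem result {p : ℕ} [Fact p.Prime] (hp : p ≠ 2) {T : Theory.{u, v} p} {M : T.Space}
    {n k m q : ℕ} (C : ClosedManifold T M n)
    {x : (T.coh M).H} (h : (T.coh M).MinimalPeriodic k x) (hper : (T.coh M).Periodic k x n)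
    (hn : p * k ≤ n) (hnq : n = m * k + q) (hq : q < k) :
    ∃ lam s, lam ∣ p - 1 ∧ k = 2 * lam * p ^ s ∧
      (∃ y, C.TopPart k m q x y ∧ C.WuPart m q ((p - 1) / lam) s x y) ∧
      (T.Liulevicius → C.Answers k m q ((p - 1) / lam) s x) :=
  main hp C h hper hn hnq hq

end Pool.Agent.Results.MP_b0d82f_gt.ClosedManifoldsOdd
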