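import Pool.Agent.Helper55.BQ.Main

/-!
# Periodicity up to degree `pk` and Hopf invariant one, `p` odd

Mathematical content. Let `M` be a connected space, `p` an odd prime, and let `x` in `H^k(M; Z_p)`
be nonzero, induce periodicity up to degree `pk` and be of minimal degree. Kennard's theorem says
`k = 2 L p^s`, `L` a divisor of `p - 1`; the question is whether `s = 0`. The classes of degree
between `0` and `k` are arbitrary.

Products of classes whose degrees are not divisible by `k` vanish in degree `nk`, `n ≤ p` (a factor
of `x` induces periodicity), and no `P^i v`, `0 < i < p^s`, is equal to `x^n`: if `i = p^j` and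
`P^i c = x^r`, `c` of degree `d < k`, then the products of `c` with itself, divided by powers of
`x`, give classes `c_u` with `P^(ui) c_u` a power of `x`, until `c c_u` has degree `k` and
vanishes. If `s > 0` then also no `β v` is equal to `x^n`, since `P^l β = P^1 β P^(l-1) -
(l-1) β P^l`, `l = k/2`. So no multiple of `x^n` is a sum of values `β u`, `P^r v`, `0 < r < p^s`,
and `P^(p^s) x` is a nonzero multiple of `x^(m+1)`, `m = (p-1)/L`. If a spherical fibration `E`
has Wu classes `q_i` with `P^(p^j) x = x q_(p^j)`, `j < s`, then the class `x U` in the cohomology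
of the Thom space of a complement of `E` satisfies `P^i (x U) = 0` for `0 < i < p^s`, and
`P^(p^s) (x U)` is not a sum of values `β (u U)`, `P^r (v U)`, `0 < r < p^s` (second part, without
secondary operations); for `s > 0` this contradicts the theorem of Liulevicius, Shimada and
Yamanoshita (third part).
-/

set_option autoImplicit false

namespace Pool.Agent.Results.MP_b0d82f_gt.OddPrimes

open Pool.Agent.Helper55.BQ

universe u v

theorem result {p : ℕ} [Fact p.Prime] (hp : p ≠ 2) {T : Theory.{u, v} p} {M : T.Space} {k : ℕ}
    {x : (T.coh M).H} (h : (T.coh M).MinimalPeriodic k x) :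
    ∃ lam s, lam ∣ p - 1 ∧ k = 2 * lam * p ^ s ∧ (T.coh M).PrimaryPart k lam s x ∧
      (0 < s → T.ThomPart k s x) ∧ (T.Liulevicius → T.Answers s x) :=
  main hp h

end Pool.Agent.Results.MP_b0d82f_gt.OddPrimes
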