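import Pool.Agent.Helper40.BP.Main

/-!
# Periodicity up to degree `2k` and Hopf invariant one

Mathematical content. Let `M` be a connected space and let `x` in `H^k(M; Z_2)` be nonzero, induce
periodicity up to degree `2k` and be of minimal degree. The question is whether `k` is `1`, `2`,
`4` or `8`; the classes of degree between `0` and `k` are arbitrary. For `a < k` one has
`Sq^a x = x w_a` with a unique class `w_a` of degree `a`, as for the Thom class of a vector bundle.

Products of classes of positive degree vanish in degree `k` (a factor of `x` induces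
periodicity), and no `Sq^r a`, `r > 0`, is equal to `x`: otherwise
`x² = Sq^(2r) (a²) = Sq^(2r) (x c) = x Sq^(2r) c` and `x = Sq^(2r) c`, and so on, until the square
is unstable. So `x²` is not a sum of values `Sq^r v`, `0 < r < k`. If a vector bundle `E` with
`w_k(E) = 0` has the Stiefel-Whitney classes `w_a`, then the class `x U` in the cohomology of the
Thom space of a complement of `E` satisfies `Sq^a (x U) = 0` for `0 < a < k`, and
`Sq^k (x U) = x² U` is not a sum of values `Sq^r (v U)`, `0 < r < k` (second part, without Adams'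
theorem); for `k ≥ 16` this contradicts Adams' theorem on secondary operations (third part).
-/

set_option autoImplicit false

namespace Pool.Agent.Results.MP_b0d82f_gt.VectorBundles

open Pool.Agent.Helper40.BP

universe u v

theorem result {T : Theory.{u, v}} {M : T.Space} {k : ℕ} {x : (T.coh M).H}
    (h : (T.coh M).MinimalPeriodic k x) :
    ((∃ m, k = 2 ^ m) ∧
      ¬ (T.coh M).Decomposes (fun r a => (T.coh M).Sq r a) k (2 * k) (x * x)) ∧
    (∀ E F : T.Bundle M, T.sw E k = 0 →
      (∀ i, 2 ^ i < k → (T.coh M).Sq (2 ^ i) x = x * T.sw E (2 ^ i)) →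
      (∀ n, 0 < n → T.sw (T.add E F) n = 0) →
      (∀ i, 0 < i → i < k → (T.coh M).thomSq (T.sw F) i x = 0) ∧
        (T.coh M).thomSq (T.sw F) k x = x * x ∧
        ¬ (T.coh M).Decomposes ((T.coh M).thomSq (T.sw F)) k (2 * k) (x * x)) ∧
    (T.Adams →
      (∀ E : T.Bundle M, T.sw E k = 0 →
        (∀ i, 2 ^ i < k → (T.coh M).Sq (2 ^ i) x = x * T.sw E (2 ^ i)) →
        k = 1 ∨ k = 2 ∨ k = 4 ∨ k = 8) ∧
      (∀ a ∈ T.integral M, (2 < k → (T.coh M).Sq 2 x = x * a) →
        (∀ i, 2 ≤ i → 2 ^ i < k → (T.coh M).Sq (2 ^ i) x = 0) →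
        k = 1 ∨ k = 2 ∨ k = 4 ∨ k = 8) ∧
      ((∀ i, 2 ≤ i → 2 ^ i < k → ∀ b ∈ (T.coh M).gr (2 ^ i), b = 0) →
        (∀ b ∈ (T.coh M).gr 2, b ∈ T.integral M) →
        k = 1 ∨ k = 2 ∨ k = 4 ∨ k = 8)) :=
  main h

end Pool.Agent.Results.MP_b0d82f_gt.VectorBundles
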